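import Pool.Agent.H.MP_eb4d96_pr.A

namespace Pool.Agent.Results.MP_eb4d96_pr.Spr

abbrev Ω {V : Type} (G : SimpleGraph V) := {I : Finset V // G.IsIndepSet (I : Set V)}

open Classical in
noncomputable def step {V : Type} (G : SimpleGraph V) (w : ℂ) (x : V) (I J : Finset V) : ℂ :=
  if ∀ y ∈ I, ¬ G.Adj x y then
    (if J = insert x I then w / (1 + w) else 0) + (if J = I.erase x then 1 / (1 + w) else 0)
  else if J = I.erase x then 1 else 0

noncomputable def P {V : Type} [Fintype V] (G : SimpleGraph V) (w : ℂ) :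
    Matrix (Ω G) (Ω G) ℂ := fun I J => (∑ x : V, step G w x I.1 J.1) / Fintype.card V

def const (X : Type) : Submodule ℂ (X → ℂ) := ℂ ∙ 1

def SprLtOne {X : Type} [Fintype X] (A : Matrix X X ℂ) : Prop :=
  ∃ h : const X ≤ (const X).comap A.mulVecLin,
    ∀ z ∈ spectrum ℂ ((const X).mapQ (const X) A.mulVecLin h), ‖z‖ < 1

open Pool.Agent.H.MP_eb4d96_pr Finset Filter Topology Classical

lemma er {V : Type} {G : SimpleGraph V} (I : Ω G) (x : V) :
    G.IsIndepSet ((I.1.erase x : Finset V) : Set V) :=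
  I.2.mono (by simp)

lemma PQ {V : Type} [Fintype V] (G : SimpleGraph V) {w : ℂ} (hw : 1 + w ≠ 0) (f : Finset V → ℂ) :
    (P G w).mulVec (fun J => f J.1) =
      fun I => Q (w / (1 + w)) (fun x => G.neighborFinset x) f I.1 := by
  ext I
  have k : ∀ (J : Finset V) (_ : G.IsIndepSet (J : Set V)) (c : ℂ),
      ∑ L : Ω G, (if L.1 = J then c else 0) * f L.1 = c * f J := fun J hJ c => by
    rw [sum_eq_single ⟨J, hJ⟩ (fun L _ h => by rw [if_neg (fun e => h (Subtype.ext e)), zero_mul])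
      (by simp), if_pos rfl]
  simp only [Matrix.mulVec, dotProduct, P, step, Q, div_mul_eq_mul_div, sum_mul]
  rw [← sum_div, sum_comm]
  congr 1
  refine sum_congr rfl fun x _ => ?_
  unfold K χ
  by_cases h : ∀ y ∈ I.1, ¬ G.Adj x y
  · have h1 : G.IsIndepSet ((insert x I.1 : Finset V) : Set V) := by
      rw [coe_insert]
      exact I.2.insert fun y hy _ => ⟨h y hy, fun e => h y hy e.symm⟩
    have h2 : Disjoint (G.neighborFinset x) I.1 := disjoint_left.mpr fun y hy e => h y e (by simpa using hy)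
    simp only [if_pos h, add_mul, sum_add_distrib, k _ h1, k _ (er I x), if_pos h2]
    field_simp; ring
  · have h2 : ¬ Disjoint (G.neighborFinset x) I.1 := fun e =>
      h fun y hy a => disjoint_left.mp e (by simpa using a) hy
    simp only [if_neg h, k _ (er I x), if_neg h2]
    ring

def U (Δ : ℕ) : Set ℂ := {w | 1 + w ≠ 0 ∧ ∃ r a : ℝ, 0 ≤ r ∧ r ≤ 1 ∧ 0 < a ∧
  ‖w / (1 + w) - r‖ + ‖w / (1 + w)‖ * ((1 + a) ^ Δ - 1) < a}

lemma U_open (Δ : ℕ) : IsOpen (U Δ) := by
  refine isOpen_iff_mem_nhds.mpr fun w ⟨hw, r, a, h0, h1, ha, h⟩ => ?_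
  have c : ContinuousAt (fun w : ℂ => ‖w / (1 + w) - r‖ + ‖w / (1 + w)‖ * ((1 + a) ^ Δ - 1)) w := by
    fun_prop (disch := exact hw)
  have c' : ContinuousAt (fun w : ℂ => 1 + w) w := by fun_prop
  filter_upwards [c.eventually_lt continuousAt_const h, c'.eventually_ne hw] with v h2 h3
  exact ⟨h3, r, a, h0, h1, ha, h2⟩

lemma U_mem {Δ : ℕ} (hΔ : 2 ≤ Δ) {t : ℝ} (h0 : 0 ≤ t) (h1 : t < 1 / (Δ - 1)) : (t : ℂ) ∈ U Δ := by
  have h2 : (2 : ℝ) ≤ Δ := by exact_mod_cast hΔ
  have e : (t : ℂ) / (1 + t) = ((t / (1 + t) : ℝ) : ℂ) := by push_cast; rfl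
  have h3 : t / (1 + t) * Δ < 1 := by
    rw [lt_div_iff₀ (by linarith)] at h1
    rw [div_mul_eq_mul_div, div_lt_one (by linarith)]; linarith
  have d : HasDerivAt (fun a : ℝ => t / (1 + t) * ((1 + a) ^ Δ - 1)) (t / (1 + t) * Δ) 0 := by
    simpa using ((((hasDerivAt_id (0 : ℝ)).const_add 1).pow Δ).sub_const 1).const_mul (t / (1 + t))
  obtain ⟨a, h4, h5⟩ := (((hasDerivAt_iff_tendsto_slope_left_right.mp d).2.eventually_lt_const h3).and
    self_mem_nhdsWithin).exists
  have h5 : 0 < a := h5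
  refine ⟨by exact_mod_cast (by linarith : 1 + t ≠ 0), t / (1 + t), a, by positivity,
    (div_le_one (by linarith)).mpr (by linarith), h5, ?_⟩
  rw [e, sub_self, norm_zero, zero_add, Complex.norm_real, Real.norm_of_nonneg (by positivity)]
  rw [slope_def_field, sub_zero, div_lt_one h5] at h4
  simpa using h4

theorem result (Δ : ℕ) (hΔ : 2 ≤ Δ) : ∃ D : Set ℂ, IsOpen D ∧ IsConnected D ∧ -1 ∉ D ∧
    (∀ t : ℝ, 0 ≤ t → t < 1 / (Δ - 1) → (t : ℂ) ∈ D) ∧
    ∀ (V : Type) [Fintype V] [Nonempty V] (G : SimpleGraph V), G.maxDegree ≤ Δ → ∀ w ∈ D,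
      SprLtOne (P G w) := by
  have h2 : (2 : ℝ) ≤ Δ := by exact_mod_cast hΔ
  have p0 : (0 : ℝ) < 1 / (Δ - 1) := div_pos one_pos (by linarith)
  have m0 : (0 : ℂ) ∈ U Δ := by simpa using U_mem hΔ le_rfl p0
  refine ⟨connectedComponentIn (U Δ) 0, (U_open Δ).connectedComponentIn,
    isConnected_connectedComponentIn_iff.mpr m0,
    fun h => (connectedComponentIn_subset _ _ h).1 (by simp), fun t h0 h1 => ?_,
    fun V _ _ G hG w hw => ?_⟩
  · refine (isPreconnected_Ico.image (fun t : ℝ => (t : ℂ))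
      Complex.continuous_ofReal.continuousOn).subset_connectedComponentIn
      ⟨0, ⟨le_rfl, p0⟩, rfl⟩ ?_ ⟨t, ⟨h0, h1⟩, rfl⟩
    rintro _ ⟨s, hs, rfl⟩
    exact U_mem hΔ hs.1 hs.2
  obtain ⟨hw, r, a, h0, h1, ha, h⟩ := connectedComponentIn_subset _ _ hw
  have one : (P G w).mulVec 1 = 1 := by
    refine (PQ G hw fun _ => 1).trans ?_
    ext I; simp [Q, K]
  refine ⟨(Submodule.span_singleton_le_iff_mem _ _).mpr (by simp [one, const]), fun z hz => ?_⟩
  obtain ⟨v, hv⟩ := (Module.End.hasEigenvalue_iff_mem_spectrum.mpr hz).exists_hasEigenvector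
  obtain ⟨g, rfl⟩ := Submodule.Quotient.mk_surjective _ v
  have e := hv.apply_eq_smul
  rw [Submodule.mapQ_apply, ← Submodule.Quotient.mk_smul, Submodule.Quotient.eq] at e
  obtain ⟨c, e⟩ := Submodule.mem_span_singleton.mp e
  have e : (P G w).mulVec g = z • g + c • 1 := by rw [e]; simp
  let f : Finset V → ℂ := fun I => if h : G.IsIndepSet (I : Set V) then g ⟨I, h⟩ else 0
  have it : ∀ k, ∃ c : ℂ, (fun I : Ω G => (Q (w / (1 + w)) (fun x => G.neighborFinset x))^[k] f I.1) =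
      z ^ k • g + c • 1 := fun k => by
    induction k with
    | zero => exact ⟨0, by ext I; simp [f, I.2]⟩
    | succ k ih =>
      obtain ⟨d, ih⟩ := ih
      refine ⟨z ^ k * c + d, ?_⟩
      rw [Function.iterate_succ_apply', ← PQ G hw, ih, Matrix.mulVec_add, Matrix.mulVec_smul,
        Matrix.mulVec_smul, e, one]
      module
  by_contra hz
  have hr : 0 ≤ (1 + a) ^ Δ - 1 := sub_nonneg.mpr (one_le_pow₀ (by linarith))
  have key : ∀ (I : Ω G) (x : V), x ∈ I.1 → g I = g ⟨_, er I x⟩ := fun I x hx => by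
    have := decay (w / (1 + w)) h0 h1 ha (N := fun x => G.neighborFinset x) (by simp)
      ((div_lt_one ha).mpr h) (by positivity) (fun x => by
        gcongr
        · linarith
        · exact (G.degree_le_maxDegree x).trans hG) f x I.1
    rw [insert_eq_of_mem hx, tendsto_zero_iff_norm_tendsto_zero] at this
    rw [← sub_eq_zero, ← norm_le_zero_iff]
    refine ge_of_tendsto' this fun k => ?_
    obtain ⟨d, hd⟩ := it k
    rw [congrFun hd I, congrFun hd ⟨_, er I x⟩]
    simp only [Pi.add_apply, Pi.smul_apply, smul_eq_mul, Pi.one_apply, add_sub_add_right_eq_sub,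
      ← mul_sub, norm_mul, norm_pow]
    exact le_mul_of_one_le_left (norm_nonneg _) (one_le_pow₀ (not_lt.mp hz))
  have cst : ∀ (I : Finset V) (h : G.IsIndepSet (I : Set V)), g ⟨I, h⟩ = g ⟨∅, by simp⟩ := fun I => by
    induction I using Finset.induction_on with
    | empty => exact fun _ => rfl
    | insert x I hx ih =>
      intro h
      rw [key ⟨_, h⟩ x (mem_insert_self _ _)]
      simp only [erase_insert hx]
      exact ih _
  refine hv.2 ((Submodule.Quotient.mk_eq_zero _).mpr (Submodule.mem_span_singleton.mpr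
    ⟨g ⟨∅, by simp⟩, ?_⟩))
  ext I
  simp [cst I.1 I.2]

end Pool.Agent.Results.MP_eb4d96_pr.Spr
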